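import Pool.Agent.W907.SM.LV
import Pool.Agent.W338.SG.ADD

/-!
# Gluing two flag complexes along a full subcomplex
-/

set_option autoImplicit false
set_option linter.unusedSectionVars false

namespace Pool.Agent.TH652.Glue

open Pool.Agent.W907.SG Pool.Agent.W907.SM Module
open Pool.Agent.W338.SG (small_restrict)

theorem finrank_prod_sub {F E1 E2 : Type} [Field F] [AddCommGroup E1] [Module F E1] [AddCommGroup E2] [Module F E2]
    [FiniteDimensional F E1] [FiniteDimensional F E2] (p : Submodule F E1) (q : Submodule F E2) :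
    finrank F (p.prod q) = finrank F p + finrank F q := by
  have e : (p.prod q) ≃ₗ[F] (p × q) :=
    { toFun := fun x => (⟨x.1.1, x.2.1⟩, ⟨x.1.2, x.2.2⟩)
      invFun := fun y => ⟨(y.1.1, y.2.1), ⟨y.1.2, y.2.2⟩⟩
      map_add' := fun _ _ => rfl
      map_smul' := fun _ _ => rfl
      left_inv := fun _ => rfl
      right_inv := fun _ => rfl }
  rw [e.finrank_eq, Module.finrank_prod]

section
variable {V : Type} [Fintype V] [LinearOrder V]
variable {F M : Type} [Field F] [AddCommGroup M] [Module F M]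

open Classical in
/-- restriction of chains to a full subcomplex -/
noncomputable def res (F : Type) {V M : Type} [Field F] [AddCommGroup M] [Module F M] (A : Set V) :
    (Finset V → M) →ₗ[F] (Finset V → M) where
  toFun c T := if (T : Set V) ⊆ A then c T else 0
  map_add' c d := by
    funext T
    by_cases h : (T : Set V) ⊆ A <;> simp [h]
  map_smul' a c := by
    funext T
    by_cases h : (T : Set V) ⊆ A <;> simp [h]

theorem res_of_sub {A : Set V} (c : Finset V → M) {T : Finset V} (h : (T : Set V) ⊆ A) : res F A c T = c T := if_pos h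

theorem res_of_not {A : Set V} (c : Finset V → M) {T : Finset V} (h : ¬ (T : Set V) ⊆ A) : res F A c T = 0 := if_neg h

theorem KK_mono {G : SimpleGraph V} {ρ : V → M →ₗ[F] M} {A A' : Set V} (h : A ⊆ A') (i : ℕ) :
    KK G ρ A ∅ i ≤ KK G ρ A' ∅ i := by
  intro c hc
  rw [mem_KK] at hc ⊢
  exact ⟨fun T hT => hc.1 T fun h1 => hT ⟨h1.1, h1.2.1.trans h, h1.2.2⟩, hc.2⟩

theorem ZZ_mono {G : SimpleGraph V} {ρ : V → M →ₗ[F] M} {A A' : Set V} (h : A ⊆ A') (i : ℕ) :
    ZZ G ρ A ∅ i ≤ ZZ G ρ A' ∅ i := inf_le_inf_right _ (KK_mono h i)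

theorem BB_mono {G : SimpleGraph V} {ρ : V → M →ₗ[F] M} {A A' : Set V} (h : A ⊆ A') (i : ℕ) :
    BB G ρ A ∅ i ≤ BB G ρ A' ∅ i := Submodule.map_mono (KK_mono h (i + 1))

theorem res_mem {G : SimpleGraph V} {ρ : V → M →ₗ[F] M} {A : Set V} {i : ℕ} {c : Finset V → M}
    (h : c ∈ KK G ρ Set.univ ∅ i) : res F A c ∈ KK G ρ A ∅ i := by
  rw [mem_KK] at h ⊢
  refine ⟨fun T hT => ?_, fun T t ht => ?_⟩
  · by_cases hA : (T : Set V) ⊆ A
    · rw [res_of_sub c hA]
      exact h.1 T fun h1 => hT ⟨h1.1, hA, h1.2.2⟩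
    · exact res_of_not c hA
  · by_cases hA : (T : Set V) ⊆ A
    · rw [res_of_sub c hA]
      exact h.2 T t ht
    · rw [res_of_not c hA, map_zero, neg_zero]

theorem res_compl_mem {G : SimpleGraph V} {ρ : V → M →ₗ[F] M} {A B : Set V}
    (hcl : ∀ T : Finset V, G.IsClique (T : Set V) → (T : Set V) ⊆ A ∨ (T : Set V) ⊆ B) {i : ℕ} {c : Finset V → M}
    (h : c ∈ KK G ρ Set.univ ∅ i) : c - res F A c ∈ KK G ρ B ∅ i := by
  rw [mem_KK] at h ⊢
  refine ⟨fun T hT => ?_, fun T t ht => ?_⟩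
  · by_cases hA : (T : Set V) ⊆ A
    · rw [Pi.sub_apply, res_of_sub c hA, sub_self]
    · rw [Pi.sub_apply, res_of_not c hA, sub_zero]
      refine h.1 T fun h1 => hT ⟨h1.1, ?_, h1.2.2⟩
      exact (hcl T h1.1).resolve_left hA
  · by_cases hA : (T : Set V) ⊆ A
    · rw [Pi.sub_apply, res_of_sub c hA, sub_self, map_zero, neg_zero]
    · rw [Pi.sub_apply, res_of_not c hA, sub_zero]
      exact h.2 T t ht

theorem inter_mem {G : SimpleGraph V} {ρ : V → M →ₗ[F] M} {A B : Set V} {i : ℕ} {c : Finset V → M}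
    (h : c ∈ KK G ρ A ∅ i) (h' : c ∈ KK G ρ B ∅ i) : c ∈ KK G ρ (A ∩ B) ∅ i := by
  rw [mem_KK] at h h' ⊢
  refine ⟨fun T hT => ?_, h.2⟩
  by_cases h1 : G.IsClique (T : Set V) ∧ (T : Set V) ⊆ A ∧ T.card = i
  · refine h'.1 T fun h2 => hT ⟨h1.1, Set.subset_inter h1.2.1 h2.2.1, h1.2.2⟩
  · exact h.1 T h1

/-- the Mayer–Vietoris inequality, positive degrees -/
theorem glue_succ (hM : S_MID) [FiniteDimensional F M] (G : SimpleGraph V) (ρ : V → M →ₗ[F] M) (A B : Set V)
    (hcl : ∀ T : Finset V, G.IsClique (T : Set V) → (T : Set V) ⊆ A ∨ (T : Set V) ⊆ B) (i : ℕ) :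
    beta G ρ Set.univ ∅ (i + 1) ≤ beta G ρ A ∅ (i + 1) + beta G ρ B ∅ (i + 1) + beta G ρ (A ∩ B) ∅ i := by
  have key := hM F ((Finset V → M) × (Finset V → M)) (Finset V → M) (Finset V → M)
    (LinearMap.coprod LinearMap.id LinearMap.id) ((bd F).comp (res F A))
    ((BB G ρ A ∅ (i + 1)).prod (BB G ρ B ∅ (i + 1))) ((ZZ G ρ A ∅ (i + 1)).prod (ZZ G ρ B ∅ (i + 1)))
    (BB G ρ Set.univ ∅ (i + 1)) (ZZ G ρ Set.univ ∅ (i + 1)) (BB G ρ (A ∩ B) ∅ i) (ZZ G ρ (A ∩ B) ∅ i)
    (Submodule.prod_mono (BB_le_ZZ _ _ _ _ _) (BB_le_ZZ _ _ _ _ _)) (BB_le_ZZ _ _ _ _ _) (BB_le_ZZ _ _ _ _ _)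
    (by
      rintro _ ⟨⟨a, b⟩, ⟨ha, hb⟩, rfl⟩
      exact Submodule.add_mem _ (BB_mono (Set.subset_univ _) _ ha) (BB_mono (Set.subset_univ _) _ hb))
    (by
      rintro _ ⟨z, hz, rfl⟩
      have h1 : bd F z = 0 := hz.2
      refine ⟨inter_mem (bd_mem_KK (res_mem hz.1)) ?_, bd_bd _⟩
      have h2 : bd F (res F A z) = - bd F (z - res F A z) := by
        rw [map_sub, h1, zero_sub, neg_neg]
      show bd F (res F A z) ∈ _
      rw [h2]
      exact Submodule.neg_mem _ (bd_mem_KK (res_compl_mem hcl hz.1)))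
    (by
      rintro z hz ⟨e, he, hez⟩
      have h1 : bd F z = 0 := hz.2
      have h0 : bd F e = bd F (res F A z) := hez
      refine ⟨(res F A z - e, (z - res F A z) + e), ⟨⟨?_, ?_⟩, ⟨?_, ?_⟩⟩, 0, Submodule.zero_mem _, ?_⟩
      · exact Submodule.sub_mem _ (res_mem hz.1) (KK_mono Set.inter_subset_left _ he)
      · show bd F (res F A z - e) = 0
        rw [map_sub, h0, sub_self]
      · exact Submodule.add_mem _ (res_compl_mem hcl hz.1) (KK_mono Set.inter_subset_right _ he)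
      · show bd F ((z - res F A z) + e) = 0
        rw [map_add, map_sub, h1, h0]; abel
      · show z = LinearMap.coprod LinearMap.id LinearMap.id (res F A z - e, (z - res F A z) + e) + 0
        rw [LinearMap.coprod_apply, LinearMap.id_apply, LinearMap.id_apply]
        funext T
        simp only [Pi.add_apply, Pi.sub_apply, Pi.zero_apply]; abel)
  rw [finrank_prod_sub, finrank_prod_sub] at key
  have k1 := Submodule.finrank_mono (BB_le_ZZ G ρ A ∅ (i + 1))
  have k2 := Submodule.finrank_mono (BB_le_ZZ G ρ B ∅ (i + 1))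
  unfold beta
  omega

/-- the Mayer–Vietoris inequality, degree zero -/
theorem glue_zero (hM : S_MID) [FiniteDimensional F M] (G : SimpleGraph V) (ρ : V → M →ₗ[F] M) (A B : Set V)
    (hcl : ∀ T : Finset V, G.IsClique (T : Set V) → (T : Set V) ⊆ A ∨ (T : Set V) ⊆ B) :
    beta G ρ Set.univ ∅ 0 ≤ beta G ρ A ∅ 0 + beta G ρ B ∅ 0 := by
  have hz0 : ∀ c ∈ KK G ρ (Set.univ : Set V) ∅ 0, bd F c = 0 := by
    intro c hc
    rw [mem_KK] at hc
    funext T
    rw [bd_apply]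
    refine Finset.sum_eq_zero fun v hv => ?_
    rw [hc.1 (insert v T), smul_zero]
    rintro ⟨_, _, h⟩
    rw [Finset.card_eq_zero] at h
    exact Finset.insert_ne_empty _ _ h
  have key := hM F ((Finset V → M) × (Finset V → M)) (Finset V → M) (Finset V → M)
    (LinearMap.coprod LinearMap.id LinearMap.id) 0
    ((BB G ρ A ∅ 0).prod (BB G ρ B ∅ 0)) ((ZZ G ρ A ∅ 0).prod (ZZ G ρ B ∅ 0))
    (BB G ρ Set.univ ∅ 0) (ZZ G ρ Set.univ ∅ 0) ⊥ ⊥
    (Submodule.prod_mono (BB_le_ZZ _ _ _ _ _) (BB_le_ZZ _ _ _ _ _)) (BB_le_ZZ _ _ _ _ _) le_rfl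
    (by
      rintro _ ⟨⟨a, b⟩, ⟨ha, hb⟩, rfl⟩
      exact Submodule.add_mem _ (BB_mono (Set.subset_univ _) _ ha) (BB_mono (Set.subset_univ _) _ hb))
    (by
      rintro _ ⟨z, hz, rfl⟩
      rw [LinearMap.zero_apply]; exact Submodule.zero_mem _)
    (by
      rintro z hz -
      refine ⟨(res F A z, z - res F A z), ⟨⟨res_mem hz.1, ?_⟩, ⟨res_compl_mem hcl hz.1, ?_⟩⟩, 0,
        Submodule.zero_mem _, ?_⟩
      · exact hz0 _ (KK_mono (Set.subset_univ _) _ (res_mem hz.1))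
      · exact hz0 _ (KK_mono (Set.subset_univ _) _ (res_compl_mem hcl hz.1))
      · show z = LinearMap.coprod LinearMap.id LinearMap.id (res F A z, z - res F A z) + 0
        rw [LinearMap.coprod_apply, LinearMap.id_apply, LinearMap.id_apply]
        funext T
        simp only [Pi.add_apply, Pi.sub_apply, Pi.zero_apply]; abel)
  rw [finrank_prod_sub, finrank_prod_sub] at key
  have k1 := Submodule.finrank_mono (BB_le_ZZ G ρ A ∅ 0)
  have k2 := Submodule.finrank_mono (BB_le_ZZ G ρ B ∅ 0)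
  have k3 : finrank F (⊥ : Submodule F (Finset V → M)) = 0 := finrank_bot _ _
  unfold beta
  omega

end

theorem arith3 {N b b1 b2 b3 c : ℕ} (h : b ≤ b1 + b2 + b3) (h1 : 3 * N * b1 ≤ c) (h2 : 3 * N * b2 ≤ c)
    (h3 : 3 * N * b3 ≤ c) : N * b ≤ c := by
  have h4 : N * b ≤ N * (b1 + b2 + b3) := Nat.mul_le_mul_left N h
  have h5 : 3 * (N * (b1 + b2 + b3)) = 3 * N * b1 + 3 * N * b2 + 3 * N * b3 := by ring
  omega

/-- `ℓ²`-vanishing for the union of two full subcomplexes -/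
theorem l2glue (V : Type) [Fintype V] [LinearOrder V] (G : SimpleGraph V) (A B : Set V)
    [Fintype A] [Fintype B] [Fintype ↥(A ∩ B)]
    (hcl : ∀ T : Finset V, G.IsClique (T : Set V) → (T : Set V) ⊆ A ∨ (T : Set V) ⊆ B) (i : ℕ)
    (h1 : L2Van (G.induce A) i) (h2 : L2Van (G.induce B) i)
    (h3 : ∀ j, i = j + 1 → L2Van (G.induce (A ∩ B)) j) : L2Van G i := by
  classical
  refine large V G i fun N E hE => ?_
  have : Fact (Nat.Prime 3) := ⟨Nat.prime_three⟩
  obtain ⟨E1, hE1, hX1⟩ := small_restrict small tr G A i h1 (3 * N)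
  obtain ⟨E2, hE2, hX2⟩ := small_restrict small tr G B i h2 (3 * N)
  cases i with
  | zero =>
    obtain ⟨Y, _, _, P, ev, e1, e2, e3, e4⟩ := nilp 3 V G (E ∪ (E1 ∪ E2)) (by decide) (by
      rw [Finset.mem_union, Finset.mem_union]
      exact fun h => h.elim hE fun h => h.elim hE1 hE2)
    refine ⟨Y, inferInstance, inferInstance, P.a, ev, P.inv, P.comm, e1, e2, e3,
      fun g hg => e4 g (Finset.mem_union_left _ hg), ?_⟩
    have b1 := glue_zero mid G (pull ℝ P.a) A B hcl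
    refine arith3 (b3 := 0) (by simpa using b1) ?_ ?_ (by simp)
    · exact hX1 Y P.a ev P.inv P.comm e1 e2 e3 (fun g hg => e4 g (by simp [hg]))
    · exact hX2 Y P.a ev P.inv P.comm e1 e2 e3 (fun g hg => e4 g (by simp [hg]))
  | succ j =>
    obtain ⟨E3, hE3, hX3⟩ := small_restrict small tr G (A ∩ B) j (h3 j rfl) (3 * N)
    obtain ⟨Y, _, _, P, ev, e1, e2, e3, e4⟩ := nilp 3 V G (E ∪ (E1 ∪ (E2 ∪ E3))) (by decide) (by
      rw [Finset.mem_union, Finset.mem_union, Finset.mem_union]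
      exact fun h => h.elim hE fun h => h.elim hE1 fun h => h.elim hE2 hE3)
    refine ⟨Y, inferInstance, inferInstance, P.a, ev, P.inv, P.comm, e1, e2, e3,
      fun g hg => e4 g (Finset.mem_union_left _ hg), ?_⟩
    have b1 := glue_succ mid G (pull ℝ P.a) A B hcl j
    refine arith3 b1 ?_ ?_ ?_
    · exact hX1 Y P.a ev P.inv P.comm e1 e2 e3 (fun g hg => e4 g (by simp [hg]))
    · exact hX2 Y P.a ev P.inv P.comm e1 e2 e3 (fun g hg => e4 g (by simp [hg]))
    · exact hX3 Y P.a ev P.inv P.comm e1 e2 e3 (fun g hg => e4 g (by simp [hg]))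

theorem clique_cover {V : Type} (G : SimpleGraph V) (A B : Set V) (hAB : A ∪ B = Set.univ)
    (hno : ∀ a ∈ A, a ∉ B → ∀ b ∈ B, b ∉ A → ¬ G.Adj a b) (T : Finset V) (hT : G.IsClique (T : Set V)) :
    (T : Set V) ⊆ A ∨ (T : Set V) ⊆ B := by
  by_contra h
  push Not at h
  obtain ⟨h1, h2⟩ := h
  obtain ⟨b, hb, hbA⟩ := Set.not_subset.1 h1
  obtain ⟨a, ha, haB⟩ := Set.not_subset.1 h2
  have ha' : a ∈ A := by
    have : a ∈ A ∪ B := by rw [hAB]; trivial
    exact this.resolve_right haB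
  have hb' : b ∈ B := by
    have : b ∈ A ∪ B := by rw [hAB]; trivial
    exact this.resolve_left hbA
  exact hno a ha' haB b hb' hbA (hT ha hb (fun e => hbA (e ▸ ha')))

/-- `ℓ²`-vanishing for a union of two full subcomplexes without edges between the complements -/
theorem lglue {V : Type} [Finite V] (G : SimpleGraph V) (A B : Set V) (hAB : A ∪ B = Set.univ)
    (hno : ∀ a ∈ A, a ∉ B → ∀ b ∈ B, b ∉ A → ¬ G.Adj a b) (i : ℕ)
    (h1 : LV (G.induce A) i) (h2 : LV (G.induce B) i) (h3 : ∀ j, i = j + 1 → LV (G.induce (A ∩ B)) j) :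
    LV G i := by
  classical
  intro _ _
  exact l2glue V G A B (clique_cover G A B hAB hno) i (h1 _ _) (h2 _ _) (fun j hj => h3 j hj _ _)

end Pool.Agent.TH652.Glue
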