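import Mathlib

/-!
# The join of two graphs
-/

set_option autoImplicit false

namespace Pool.Agent.TH652.Join

/-- the join of two graphs -/
def join {V U : Type} (G : SimpleGraph V) (H : SimpleGraph U) : SimpleGraph (V ⊕ U) where
  Adj x y := match x, y with
    | Sum.inl a, Sum.inl b => G.Adj a b
    | Sum.inl _, Sum.inr _ => True
    | Sum.inr _, Sum.inl _ => True
    | Sum.inr a, Sum.inr b => H.Adj a b
  symm := ⟨by
    intro x y h
    cases x <;> cases y <;> simp_all [G.adj_comm, H.adj_comm]⟩
  loopless := ⟨by
    intro x
    cases x <;> simp⟩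

end Pool.Agent.TH652.Join
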