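import Pool.Agent.W907.SM.GorBase
import Pool.Agent.TH652.JoinDef

/-!
# The class `AM n` of finite graphs
-/

set_option autoImplicit false

namespace Pool.Agent.TH652.Above

open Pool.Agent.W907.SG Pool.Agent.W907.SM
open Pool.Agent.TH652.Join (join)

/-- the class of finite graphs -/
inductive AM : ℕ → ∀ {V : Type}, SimpleGraph V → Prop
  /-- order complexes of posets of length `n` which are Gorenstein* over `F_2` -/
  | base {n : ℕ} {V : Type} (G : SimpleGraph V) : GorBase n G → AM n G
  /-- full subcomplexes -/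
  | full {n : ℕ} {V : Type} (G : SimpleGraph V) (A : Set V) : AM n G → AM n (G.induce A)
  /-- stellar subdivision of an edge -/
  | sub {n : ℕ} {V : Type} (G : SimpleGraph V) (s t : V) : G.Adj s t → AM n G → AM n (esub G s t)
  /-- joins -/
  | join {m n : ℕ} {V U : Type} (G : SimpleGraph V) (H : SimpleGraph U) : AM m G → AM n H → AM (m + n) (join G H)
  /-- from `n` to `n + 1` -/
  | succ {n : ℕ} {V : Type} (G : SimpleGraph V) : AM n G → AM (n + 1) G
  /-- even length: a condition on the links of the vertices -/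
  | loc {m : ℕ} {V : Type} [Finite V] (G : SimpleGraph V) :
      (∀ v, AM (2 * m + 1) (G.induce (G.neighborSet v))) → AM (2 * m + 2) G
  /-- gluing along a full subcomplex of the class `n` -/
  | glue {n : ℕ} {V : Type} [Finite V] (G : SimpleGraph V) (A B : Set V) : A ∪ B = Set.univ →
      (∀ a ∈ A, a ∉ B → ∀ b ∈ B, b ∉ A → ¬ G.Adj a b) → AM (n + 2) (G.induce A) → AM (n + 2) (G.induce B) →
      AM n (G.induce (A ∩ B)) → AM (n + 2) G
  /-- isomorphic graphs -/
  | iso {n : ℕ} {V U : Type} (G : SimpleGraph V) (H : SimpleGraph U) : Nonempty (G ≃g H) → AM n G → AM n H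

end Pool.Agent.TH652.Above
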