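import Pool.Agent.TH652.Above
import Pool.Agent.TH652.ClassDef
import Pool.Agent.TH652.ClassDefI

/-!
# The class of graphs for which the `ℓ²`-homology vanishes above the middle

`AM n G`: the flag complex of `G` (of dimension at most `n - 1` in the basic cases) is obtained from order complexes
of Gorenstein* posets of length `n` by passing to full subcomplexes, edge subdivisions, joins, gluing along full
subcomplexes of the class `n - 2`, and, in even dimensions, from a condition on the links of vertices.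
`AMI n G`: the same for infinite graphs.
-/

set_option autoImplicit false

namespace Pool.Agent.TH652.Above

open Pool.Agent.W907.SG Pool.Agent.W907.SM
open Pool.Agent.TH652.Join (join)

theorem P_succ {n : ℕ} {V : Type} (G : SimpleGraph V) (h : P n G) : P (n + 1) G :=
  ⟨h.1, fun T hT A hA i hi => h.2 T hT A hA i (by omega)⟩

theorem P_of_AM {n : ℕ} {V : Type} {G : SimpleGraph V} (h : AM n G) : P n G := by
  induction h with
  | base G h => exact P_base G h
  | full G A _ ih => exact P_full G A ih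
  | sub G s t hst _ ih => exact P_sub G s t hst ih
  | join G H _ _ ih1 ih2 => exact P_join G H ih1 ih2
  | succ G _ ih => exact P_succ G ih
  | loc G _ ih => exact P_loc G ih
  | glue G A B hAB hno _ _ _ ih1 ih2 ih3 => exact P_glue G A B hAB hno ih1 ih2 ih3
  | iso G H e _ ih => exact P_iso G H e.some ih

theorem lv_of_P {n : ℕ} {V : Type} {G : SimpleGraph V} (h : P n G) (i : ℕ) (hi : n < 2 * i) : LV G i := by
  have h1 := h.2 ∅ (by simp) Set.univ (by intro a _ u hu; simp at hu) i (by rw [Finset.card_empty]; omega)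
  exact (lv_univ G i).1 h1

/-- vanishing above the middle for the class `AM` -/
theorem above_AM {n : ℕ} {V : Type} [Fintype V] [LinearOrder V] {G : SimpleGraph V} (h : AM n G) (i : ℕ)
    (hi : n < 2 * i) : L2Van G i :=
  lv_of_P (P_of_AM h) i hi _ _

/-! ### infinite graphs -/

/-- the motive -/
def PI (n : ℕ) {V : Type} (G : SimpleGraph V) : Prop := ∀ A : Set V, A.Finite → P n (G.induce A)

theorem P_of_map {n : ℕ} {U V : Type} (G : SimpleGraph V) (H : SimpleGraph U) (f : U → V)
    (hf : Function.Injective f) (hadj : ∀ a b, G.Adj (f a) (f b) ↔ H.Adj a b) (h : P n G) : P n H :=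
  P_emb G H ⟨⟨f, hf⟩, fun {a b} => hadj a b⟩ h

theorem PI_emb {n : ℕ} {U V : Type} (G : SimpleGraph V) (H : SimpleGraph U) (f : U → V)
    (hf : Function.Injective f) (hadj : ∀ a b, G.Adj (f a) (f b) ↔ H.Adj a b) (h : PI n G) : PI n H := by
  intro A hA
  refine P_of_map (G.induce (f '' A)) (H.induce A) (fun a => ⟨f a.1, a.1, a.2, rfl⟩) ?_ ?_ (h _ (hA.image f))
  · intro a b hab
    exact Subtype.ext (hf (congrArg Subtype.val hab))
  · intro a b
    exact hadj a.1 b.1

theorem PI_of_P {n : ℕ} {V : Type} {G : SimpleGraph V} (h : P n G) : PI n G := fun A _ => P_full G A h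

theorem P_of_PI {n : ℕ} {V : Type} [Finite V] {G : SimpleGraph V} (h : PI n G) : P n G :=
  P_of_map (G.induce Set.univ) G (fun a => ⟨a, trivial⟩) (fun _ _ h => congrArg Subtype.val h) (fun _ _ => Iff.rfl)
    (h Set.univ Set.finite_univ)

theorem PI_sub {n : ℕ} {V : Type} (G : SimpleGraph V) (s t : V) (hst : G.Adj s t) (h : PI n G) :
    PI n (esub G s t) := by
  classical
  intro A hA
  set B : Set V := insert s (insert t {a | some a ∈ A}) with hB
  have hBf : B.Finite := by
    refine Set.Finite.insert _ (Set.Finite.insert _ ?_)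
    exact Set.Finite.preimage (Option.some_injective V).injOn hA
  have hs : s ∈ B := Or.inl rfl
  have ht : t ∈ B := Or.inr (Or.inl rfl)
  have h1 := P_sub (G.induce B) ⟨s, hs⟩ ⟨t, ht⟩ hst (h B hBf)
  refine P_of_map _ _ (fun x : ↥A => match x with
    | ⟨none, _⟩ => none
    | ⟨some a, ha⟩ => some ⟨a, Or.inr (Or.inr ha)⟩) ?_ ?_ h1
  · rintro ⟨_ | a, ha⟩ ⟨_ | b, hb⟩ hab
    · rfl
    · cases hab
    · cases hab
    · have := congrArg Subtype.val (Option.some_injective _ hab)
      exact Subtype.ext (congrArg some this)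
  · rintro ⟨_ | a, ha⟩ ⟨_ | b, hb⟩
    · exact Iff.rfl
    · show (esub (G.induce B) ⟨s, hs⟩ ⟨t, ht⟩).Adj none (some _) ↔ (esub G s t).Adj none (some b)
      rw [Clo.esub_none_some, Clo.esub_none_some]
      simp only [Subtype.ext_iff]
      exact Iff.rfl
    · show (esub (G.induce B) ⟨s, hs⟩ ⟨t, ht⟩).Adj (some _) none ↔ (esub G s t).Adj (some a) none
      rw [Clo.esub_some_none, Clo.esub_some_none]
      simp only [Subtype.ext_iff]
      exact Iff.rfl
    · show (esub (G.induce B) ⟨s, hs⟩ ⟨t, ht⟩).Adj (some _) (some _) ↔ (esub G s t).Adj (some a) (some b)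
      rw [Clo.esub_some_some, Clo.esub_some_some]
      simp only [Subtype.ext_iff]
      exact Iff.rfl

theorem PI_join {m n : ℕ} {V U : Type} (G : SimpleGraph V) (H : SimpleGraph U) (h1 : PI m G) (h2 : PI n H) :
    PI (m + n) (join G H) := by
  intro A hA
  have h3 := P_join _ _ (h1 {a | Sum.inl a ∈ A} (Set.Finite.preimage Sum.inl_injective.injOn hA))
    (h2 {a | Sum.inr a ∈ A} (Set.Finite.preimage Sum.inr_injective.injOn hA))
  refine P_of_map _ _ (fun x : ↥A => match x with
    | ⟨Sum.inl a, ha⟩ => Sum.inl ⟨a, ha⟩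
    | ⟨Sum.inr a, ha⟩ => Sum.inr ⟨a, ha⟩) ?_ ?_ h3
  · rintro ⟨a | a, ha⟩ ⟨b | b, hb⟩ hab
    · exact Subtype.ext (congrArg Sum.inl (congrArg Subtype.val (Sum.inl_injective hab)))
    · cases hab
    · cases hab
    · exact Subtype.ext (congrArg Sum.inr (congrArg Subtype.val (Sum.inr_injective hab)))
  · rintro ⟨a | a, ha⟩ ⟨b | b, hb⟩ <;> exact Iff.rfl

theorem PI_loc {m : ℕ} {V : Type} (G : SimpleGraph V)
    (h : ∀ v, PI (2 * m + 1) (G.induce (G.neighborSet v))) : PI (2 * m + 2) G := by
  intro A hA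
  have : Finite ↥A := hA
  refine P_loc (G.induce A) fun v => ?_
  have h1 := h v.1 {x | x.1 ∈ A} (Set.Finite.preimage Subtype.val_injective.injOn hA)
  refine P_of_map _ _ (fun x : ↥((G.induce A).neighborSet v) => ⟨⟨x.1.1, x.2⟩, x.1.2⟩) ?_ ?_ h1
  · intro a b hab
    have := congrArg (fun y => y.1.1) hab
    exact Subtype.ext (Subtype.ext this)
  · intro a b
    exact Iff.rfl

theorem PI_glue {n : ℕ} {V : Type} (G : SimpleGraph V) (A B : Set V) (hAB : A ∪ B = Set.univ)
    (hno : ∀ a ∈ A, a ∉ B → ∀ b ∈ B, b ∉ A → ¬ G.Adj a b) (h1 : PI (n + 2) (G.induce A))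
    (h2 : PI (n + 2) (G.induce B)) (h3 : PI n (G.induce (A ∩ B))) : PI (n + 2) G := by
  intro D hD
  have : Finite ↥D := hD
  have key : ∀ (k : ℕ) (C : Set V), PI k (G.induce C) → P k ((G.induce D).induce {x | x.1 ∈ C}) := by
    intro k C hC
    have h4 := hC {x | x.1 ∈ D} (Set.Finite.preimage Subtype.val_injective.injOn hD)
    refine P_of_map _ _ (fun x : ↥{x : ↥D | x.1 ∈ C} => ⟨⟨x.1.1, x.2⟩, x.1.2⟩) ?_ ?_ h4
    · intro a b hab
      have := congrArg (fun y => y.1.1) hab
      exact Subtype.ext (Subtype.ext this)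
    · intro a b
      exact Iff.rfl
  refine P_glue (G.induce D) {x | x.1 ∈ A} {x | x.1 ∈ B} ?_ ?_ (key _ A h1) (key _ B h2) (key _ (A ∩ B) h3)
  · ext x
    simp only [Set.mem_union, Set.mem_ofPred_eq, Set.mem_univ, iff_true]
    have : x.1 ∈ A ∪ B := by rw [hAB]; trivial
    exact this
  · intro a ha haB b hb hbA
    exact hno a.1 ha haB b.1 hb hbA

theorem PI_of_AMI {n : ℕ} {V : Type} {G : SimpleGraph V} (h : AMI n G) : PI n G := by
  induction h with
  | base G h => exact PI_of_P (P_base G h)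
  | locfin G _ ih =>
    intro A hA
    have : Finite ↥A := hA
    exact P_of_PI (ih A hA)
  | full G A _ ih => exact PI_emb G (G.induce A) Subtype.val Subtype.val_injective (fun _ _ => Iff.rfl) ih
  | sub G s t hst _ ih => exact PI_sub G s t hst ih
  | join G H _ _ ih1 ih2 => exact PI_join G H ih1 ih2
  | succ G _ ih => exact fun A hA => P_succ _ (ih A hA)
  | loc G _ ih => exact PI_loc G ih
  | glue G A B hAB hno _ _ _ ih1 ih2 ih3 => exact PI_glue G A B hAB hno ih1 ih2 ih3
  | iso G H e _ ih =>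
    obtain ⟨e⟩ := e
    exact PI_emb G H e.symm e.symm.injective (fun _ _ => e.symm.map_adj_iff) ih

/-- vanishing above the middle for the finite full subcomplexes of infinite complexes of the class `AMI` -/
theorem above_AMI {n : ℕ} {V : Type} {G : SimpleGraph V} (h : AMI n G) (A : Set V) (_ : A.Finite)
    [Fintype ↥A] [LinearOrder ↥A] (i : ℕ) (hi : n < 2 * i) : L2Van (G.induce A) i :=
  lv_of_P (PI_of_AMI h A ‹_›) i hi _ _

end Pool.Agent.TH652.Above
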