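import Pool.Agent.TH652.Dual2

set_option autoImplicit false
set_option linter.unusedSectionVars false

/-!
# The orientation
-/

namespace Pool.Agent.TH652.Dual

open Pool.Agent.W907.SG Pool.Agent.W907.SM Module

section Abs

variable {V : Type} [Fintype V] [LinearOrder V] {G : SimpleGraph V}

/-- the link operator -/
def Lv (v : V) (c : Finset V → ℝ) : Finset V → ℝ := fun R => if v ∈ R then 0 else (sg v R : ℝ) * c (insert v R)

theorem bd_Lv (v : V) (c : Finset V → ℝ) : bd ℝ (Lv v c) = - Lv v (bd ℝ c) := by
  funext R
  rw [bd_apply, Pi.neg_apply]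
  by_cases hv : v ∈ R
  · have h1 : Lv v (bd ℝ c) R = 0 := if_pos hv
    rw [h1, neg_zero]
    refine Finset.sum_eq_zero fun u _ => ?_
    have h2 : Lv v c (insert u R) = 0 := if_pos (Finset.mem_insert_of_mem hv)
    rw [h2, smul_zero]
  · have h1 : Lv v (bd ℝ c) R = (sg v R : ℝ) * bd ℝ c (insert v R) := if_neg hv
    have h2 : (insert v R)ᶜ = Rᶜ.erase v := by
      ext u
      simp
    have hv' : v ∈ Rᶜ := by simpa using hv
    rw [h1, bd_apply, h2, ← Finset.add_sum_erase _ _ hv']
    have h3 : Lv v c (insert v R) = 0 := if_pos (Finset.mem_insert_self _ _)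
    rw [h3, smul_zero, zero_add, Finset.mul_sum, ← Finset.sum_neg_distrib]
    refine Finset.sum_congr rfl fun u hu => ?_
    have huv : u ≠ v := (Finset.mem_erase.1 hu).1
    have huR : u ∉ R := by simpa using (Finset.mem_erase.1 hu).2
    have h4 : Lv v c (insert u R) = (sg v (insert u R) : ℝ) * c (insert v (insert u R)) := by
      refine if_neg ?_
      rw [Finset.mem_insert, not_or]
      exact ⟨fun h => huv h.symm, hv⟩
    rw [h4, Finset.insert_comm v u R, zsmul_eq_mul, zsmul_eq_mul]
    have h5 : ((sg u (insert v R) * sg v R : ℤ) : ℝ) = ((-(sg v (insert u R) * sg u R) : ℤ) : ℝ) := by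
      rw [sg_swap u v R huv huR hv]
    push_cast at h5
    linear_combination (c (insert u (insert v R))) * h5

theorem Lv_mem {S : Finset V} {d : ℕ} {c : Finset V → ℝ} (v : V) (hc : c ∈ ZZ G (triv V) (lk G S) ∅ (d + 1)) :
    Lv v c ∈ ZZ G (triv V) (lk G (insert v S)) ∅ d := by
  obtain ⟨h1, h2⟩ := hc
  have h2' : bd ℝ c = 0 := h2
  rw [SetLike.mem_coe, mem_KK_triv] at h1
  refine ⟨?_, ?_⟩
  · rw [SetLike.mem_coe, mem_KK_triv]
    intro R hR
    by_cases hv : v ∈ R
    · exact if_pos hv
    · have e : Lv v c R = (sg v R : ℝ) * c (insert v R) := if_neg hv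
      rw [e, h1 (insert v R), mul_zero]
      rintro ⟨h3, h4, h5⟩
      refine hR ⟨h3.subset (by simp), ?_, ?_⟩
      · intro r hr u hu
        rw [Finset.mem_insert] at hu
        rcases hu with rfl | hu
        · exact h3 (by simp [Finset.mem_coe.1 hr]) (by simp) (fun e => hv (e ▸ hr))
        · exact h4 (by simp [Finset.mem_coe.1 hr]) u hu
      · rw [Finset.card_insert_of_notMem hv] at h5
        omega
  · show bd ℝ (Lv v c) = 0
    rw [bd_Lv, h2']
    funext R
    rw [Pi.neg_apply]
    unfold Lv
    split_ifs
    · rw [neg_zero]; rfl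
    · rw [Pi.zero_apply, mul_zero, neg_zero]; rfl

/-- no cliques with `n + 1` vertices -/
theorem no_big {n : ℕ} (hS : Sph n G) {T : Finset V} (hT : G.IsClique (T : Set V)) : T.card ≤ n := by
  by_contra hn
  push Not at hn
  obtain ⟨T', hT', hc'⟩ := Finset.exists_subset_card_eq (Nat.succ_le_of_lt hn)
  have hcl : G.IsClique (T' : Set V) := hT.subset (by exact_mod_cast hT')
  obtain ⟨v, hv⟩ : T'.Nonempty := Finset.card_pos.1 (by omega)
  have h1 := hS (T'.erase v) (hcl.subset (by exact_mod_cast Finset.erase_subset v T')) 0
  rw [Finset.card_erase_of_mem hv, hc'] at h1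
  rw [if_pos (by omega)] at h1
  have hvl : v ∈ lk G (T'.erase v) := fun u hu =>
    hcl hv (Finset.mem_coe.2 (Finset.mem_of_mem_erase hu)) (Finset.ne_of_mem_erase hu).symm
  have h2 : BB G (triv V) (lk G (T'.erase v)) ∅ 0 = ZZ G (triv V) (lk G (T'.erase v)) ∅ 0 := by
    refine le_antisymm (BB_le_ZZ _ _ _ _ _) ?_
    rintro z ⟨hz, _⟩
    rw [SetLike.mem_coe, mem_KK_triv] at hz
    refine ⟨fun T => if T = {v} then z ∅ else 0, ?_, ?_⟩
    · rw [SetLike.mem_coe, mem_KK_triv]
      intro T hT
      refine if_neg ?_
      rintro rfl
      refine hT ⟨by simp, by simpa using hvl, by simp⟩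
    · funext T
      rw [bd_apply]
      by_cases hT : T = ∅
      · subst hT
        rw [Finset.sum_eq_single v]
        · have e : (insert v ∅ : Finset V) = {v} := rfl
          have e2 : (sg v (∅ : Finset V) : ℤ) = 1 := by simp [sg]
          rw [e, if_pos rfl, e2, one_smul]
        · intro u _ hu
          rw [if_neg, smul_zero]
          intro h
          have : u ∈ ({v} : Finset V) := h ▸ Finset.mem_insert_self u ∅
          exact hu (Finset.mem_singleton.1 this)
        · intro h
          exact absurd (by simp) h
      · rw [hz T (fun h => hT (Finset.card_eq_zero.1 h.2.2))]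
        refine Finset.sum_eq_zero fun u hu => ?_
        rw [if_neg, smul_zero]
        intro h
        have h3 := congrArg Finset.card h
        rw [Finset.card_insert_of_notMem (by simpa using hu), Finset.card_singleton] at h3
        exact hT (Finset.card_eq_zero.1 (by omega))
  unfold beta at h1
  rw [h2] at h1
  omega

theorem top_KK {n : ℕ} (hS : Sph n G) {S : Finset V} (hcl : G.IsClique (S : Set V)) {d : ℕ} (hd : n < d + S.card) :
    KK G (triv V) (lk G S) ∅ d = ⊥ := by
  rw [eq_bot_iff]
  intro c hc
  rw [mem_KK_triv] at hc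
  rw [Submodule.mem_bot]
  funext T
  refine hc T ?_
  rintro ⟨h1, h2, h3⟩
  have h4 := (lk_iff hcl T).1 ⟨h1, h2⟩
  have h5 := no_big hS h4.2
  rw [Finset.card_union_of_disjoint h4.1] at h5
  omega

theorem top_dim {n : ℕ} (hS : Sph n G) {S : Finset V} (hcl : G.IsClique (S : Set V)) {d : ℕ} (hd : d + S.card = n) :
    finrank ℝ (ZZ G (triv V) (lk G S) ∅ d) = 1 := by
  have h1 := hS S hcl d
  rw [if_pos hd] at h1
  have h2 : BB G (triv V) (lk G S) ∅ d = ⊥ := by
    unfold BB
    rw [top_KK hS hcl (by omega), Submodule.map_bot]
  unfold beta at h1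
  rw [h2, finrank_bot] at h1
  omega

theorem top_span {n : ℕ} (hS : Sph n G) {S : Finset V} (hcl : G.IsClique (S : Set V)) {d : ℕ} (hd : d + S.card = n)
    {z c : Finset V → ℝ} (hz : z ∈ ZZ G (triv V) (lk G S) ∅ d) (hz0 : z ≠ 0)
    (hc : c ∈ ZZ G (triv V) (lk G S) ∅ d) : ∃ r : ℝ, c = r • z := by
  have h1 := top_dim hS hcl hd
  have h2 : (⟨z, hz⟩ : ZZ G (triv V) (lk G S) ∅ d) ≠ 0 := by
    intro h
    exact hz0 (congrArg Subtype.val h)
  obtain ⟨r, hr⟩ := (finrank_eq_one_iff_of_nonzero' _ h2).1 h1 ⟨c, hc⟩
  exact ⟨r, (congrArg Subtype.val hr).symm⟩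

/-- the difference of two vertices -/
def dv (u v : V) : Finset V → ℝ := fun T => if T = {v} then 1 else if T = {u} then -1 else 0

theorem dv_mem {S : Finset V} {u v : V} (huv : u ≠ v) (hu : u ∈ lk G S) (hv : v ∈ lk G S) :
    dv u v ∈ ZZ G (triv V) (lk G S) ∅ 1 := by
  refine ⟨?_, ?_⟩
  · rw [SetLike.mem_coe, mem_KK_triv]
    intro T hT
    unfold dv
    rw [if_neg, if_neg]
    · rintro rfl
      exact hT ⟨by simp, by simpa using hu, by simp⟩
    · rintro rfl
      exact hT ⟨by simp, by simpa using hv, by simp⟩
  · show bd ℝ (dv u v) = 0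
    funext T
    rw [bd_apply, Pi.zero_apply]
    by_cases hT : T = ∅
    · subst hT
      have e : ∀ x ∈ (∅ : Finset V)ᶜ, sg x (∅ : Finset V) • dv u v (insert x ∅) =
          (if x = v then 1 else 0) - (if x = u then (1 : ℝ) else 0) := by
        intro x _
        have e2 : (sg x (∅ : Finset V) : ℤ) = 1 := by simp [sg]
        have e3 : (insert x ∅ : Finset V) = {x} := rfl
        rw [e2, one_smul, e3]
        unfold dv
        simp only [Finset.singleton_inj]
        by_cases h1 : x = v
        · have h2 : x ≠ u := fun h => huv (h ▸ h1)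
          rw [if_pos h1, if_pos h1, if_neg h2, sub_zero]
        · rw [if_neg h1, if_neg h1]
          by_cases h2 : x = u
          · rw [if_pos h2, if_pos h2, zero_sub]
          · rw [if_neg h2, if_neg h2, sub_zero]
      rw [Finset.sum_congr rfl e, Finset.sum_sub_distrib, Finset.sum_ite_eq', Finset.sum_ite_eq']
      simp
    · refine Finset.sum_eq_zero fun x hx => ?_
      have hx' : x ∉ T := by simpa using hx
      have h1 : ∀ y : V, insert x T ≠ ({y} : Finset V) := by
        intro y h
        have h3 := congrArg Finset.card h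
        rw [Finset.card_insert_of_notMem hx', Finset.card_singleton] at h3
        exact hT (Finset.card_eq_zero.1 (by omega))
      unfold dv
      rw [if_neg (h1 v), if_neg (h1 u), smul_zero]

theorem Lv_ne {n : ℕ} (hS : Sph n G) : ∀ (d : ℕ) (S : Finset V), G.IsClique (S : Set V) → d + S.card = n →
    ∀ z ∈ ZZ G (triv V) (lk G S) ∅ d, z ≠ 0 → ∀ v ∈ lk G S, Lv v z ≠ 0 := by
  classical
  intro d
  induction d with
  | zero =>
    intro S hcl hd z _ _ v hv
    exfalso
    have h1 : G.IsClique ((S ∪ {v} : Finset V) : Set V) :=
      ((lk_iff hcl {v}).1 ⟨by simp, by simpa using hv⟩).2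
    have h2 : Disjoint S {v} := ((lk_iff hcl {v}).1 ⟨by simp, by simpa using hv⟩).1
    have h3 := no_big hS h1
    rw [Finset.card_union_of_disjoint h2, Finset.card_singleton] at h3
    omega
  | succ d ih =>
    intro S hcl hd z hz hz0 v hv hL
    -- a good vertex
    obtain ⟨T, hT⟩ : ∃ T, z T ≠ 0 := by
      by_contra h
      push Not at h
      exact hz0 (funext h)
    have hzK := hz.1
    rw [SetLike.mem_coe, mem_KK_triv] at hzK
    have hT2 : G.IsClique (T : Set V) ∧ (T : Set V) ⊆ lk G S ∧ T.card = d + 1 := by
      by_contra h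
      exact hT (hzK T h)
    obtain ⟨u, hu⟩ : T.Nonempty := Finset.card_pos.1 (by omega)
    have hu2 : u ∈ lk G S := hT2.2.1 hu
    have hLu : Lv u z ≠ 0 := by
      intro h
      have h1 := congrFun h (T.erase u)
      have e : Lv u z (T.erase u) = (sg u (T.erase u) : ℝ) * z (insert u (T.erase u)) :=
        if_neg (Finset.notMem_erase u T)
      rw [e, Finset.insert_erase hu, Pi.zero_apply] at h1
      rcases mul_eq_zero.1 h1 with h2 | h2
      · rcases sg_eq_or u (T.erase u) with h3 | h3 <;> rw [h3] at h2 <;> norm_num at h2
      · exact hT h2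
    have huv : u ≠ v := by
      rintro rfl
      exact hLu hL
    have hdv := dv_mem huv hu2 hv
    -- the functional
    have key : ∀ c ∈ ZZ G (triv V) (lk G S) ∅ 1,
        ∑ w : V, (if Lv w z ≠ 0 ∧ w ∈ lk G S then c {w} else 0) = 0 := by
      rcases Nat.eq_zero_or_pos d with h0 | h0
      · subst h0
        intro c hc
        obtain ⟨r, rfl⟩ := top_span hS hcl hd hz hz0 hc
        have h1 : ∀ w : V, (if Lv w z ≠ 0 ∧ w ∈ lk G S then (r • z) {w} else 0) = r * z {w} := by
          intro w
          split_ifs with h
          · rfl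
          · by_cases hw : w ∈ lk G S
            · have h2 : Lv w z = 0 := by
                by_contra h3
                exact h ⟨h3, hw⟩
              have h3 := congrFun h2 ∅
              have e : Lv w z ∅ = (sg w (∅ : Finset V) : ℝ) * z (insert w ∅) := if_neg (Finset.notMem_empty w)
              have e2 : (sg w (∅ : Finset V) : ℤ) = 1 := by simp [sg]
              have e3 : (insert w ∅ : Finset V) = {w} := rfl
              rw [e, e2, e3, Int.cast_one, one_mul, Pi.zero_apply] at h3
              rw [h3, mul_zero]
            · rw [hzK {w}, mul_zero]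
              rintro ⟨_, h2, _⟩
              exact hw (h2 (by simp))
        rw [Finset.sum_congr rfl fun w _ => h1 w, ← Finset.mul_sum]
        have h2 := congrFun (show bd ℝ z = 0 from hz.2) ∅
        rw [bd_apply, Pi.zero_apply] at h2
        have h3 : ∑ w : V, z {w} = 0 := by
          rw [← h2]
          refine Finset.sum_congr (by simp) fun w _ => ?_
          have e2 : (sg w (∅ : Finset V) : ℤ) = 1 := by simp [sg]
          have e3 : (insert w ∅ : Finset V) = {w} := rfl
          rw [e2, one_smul, e3]
        rw [h3, mul_zero]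
      · intro c hc
        rw [← exact_of_beta (by rw [hS S hcl 1, if_neg (by omega)])] at hc
        obtain ⟨y, hy, rfl⟩ := hc
        rw [SetLike.mem_coe, mem_KK_triv] at hy
        have hadj : ∀ w x : V, y {w, x} ≠ 0 → w ≠ x → Lv w z ≠ 0 → Lv x z ≠ 0 := by
          intro w x hwx hne hw hx
          have h1 : G.IsClique (({w, x} : Finset V) : Set V) ∧ (({w, x} : Finset V) : Set V) ⊆ lk G S ∧
              ({w, x} : Finset V).card = 1 + 1 := by
            by_contra h
            exact hwx (hy _ h)
          have hwS : w ∈ lk G S := h1.2.1 (by simp)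
          have hxS : x ∈ lk G S := h1.2.1 (by simp)
          have hA : G.Adj w x := h1.1 (by simp) (by simp) hne
          have hwn : w ∉ S := fun h => G.irrefl (hwS w h)
          have hcl2 : G.IsClique ((insert w S : Finset V) : Set V) := by
            have h2 := ((lk_iff hcl {w}).1 ⟨by simp, by simpa using hwS⟩).2
            rwa [Finset.union_comm] at h2
          have h3 := ih (insert w S) hcl2 (by rw [Finset.card_insert_of_notMem hwn]; omega) (Lv w z)
            (Lv_mem w hz) hw x (by
              intro u hu
              rcases Finset.mem_insert.1 hu with rfl | hu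
              · exact hA.symm
              · exact hxS u hu)
          refine h3 ?_
          funext R
          by_cases hxR : x ∈ R
          · exact if_pos hxR
          · have e : Lv x (Lv w z) R = (sg x R : ℝ) * Lv w z (insert x R) := if_neg hxR
            rw [e]
            by_cases hwR : w ∈ R
            · have e2 : Lv w z (insert x R) = 0 := if_pos (Finset.mem_insert_of_mem hwR)
              rw [e2, mul_zero]
              rfl
            · have e2 : Lv w z (insert x R) = (sg w (insert x R) : ℝ) * z (insert w (insert x R)) := by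
                refine if_neg ?_
                rw [Finset.mem_insert, not_or]
                exact ⟨hne, hwR⟩
              have h4 := congrFun hx (insert w R)
              have e3 : Lv x z (insert w R) = (sg x (insert w R) : ℝ) * z (insert x (insert w R)) := by
                refine if_neg ?_
                rw [Finset.mem_insert, not_or]
                exact ⟨fun h => hne h.symm, hxR⟩
              rw [e3, Pi.zero_apply] at h4
              have h5 : z (insert x (insert w R)) = 0 := by
                rcases mul_eq_zero.1 h4 with h2 | h2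
                · rcases sg_eq_or x (insert w R) with h3 | h3 <;> rw [h3] at h2 <;> norm_num at h2
                · exact h2
              rw [e2, Finset.insert_comm w x R, h5, mul_zero, mul_zero]
              rfl
        have h1 : ∀ w : V, (if Lv w z ≠ 0 ∧ w ∈ lk G S then bd ℝ y {w} else 0) =
            ∑ x : V, (if Lv w z ≠ 0 ∧ w ≠ x then (sg x {w} : ℝ) * y {w, x} else 0) := by
          intro w
          split_ifs with h
          · rw [bd_apply, ← Finset.sum_subset (Finset.subset_univ ({w} : Finset V)ᶜ)]
            · refine Finset.sum_congr rfl fun x hx => ?_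
              have hx' : x ≠ w := by simpa using hx
              rw [if_pos ⟨h.1, hx'.symm⟩, zsmul_eq_mul, Finset.pair_comm w x]
            · intro x _ hx
              have hx' : x = w := by simpa using hx
              rw [if_neg]
              rintro ⟨_, h2⟩
              exact h2 hx'.symm
          · symm
            refine Finset.sum_eq_zero fun x _ => ?_
            split_ifs with h2
            · rw [hy {w, x}, mul_zero]
              rintro ⟨_, h3, _⟩
              exact h ⟨h2.1, h3 (by simp)⟩
            · rfl
        rw [Finset.sum_congr rfl fun w _ => h1 w]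
        have h2 : ∑ w : V, ∑ x : V, (if Lv w z ≠ 0 ∧ w ≠ x then (sg x {w} : ℝ) * y {w, x} else 0) =
            - ∑ w : V, ∑ x : V, (if Lv w z ≠ 0 ∧ w ≠ x then (sg x {w} : ℝ) * y {w, x} else 0) := by
          conv_lhs => rw [Finset.sum_comm]
          rw [← Finset.sum_neg_distrib]
          refine Finset.sum_congr rfl fun w _ => ?_
          rw [← Finset.sum_neg_distrib]
          refine Finset.sum_congr rfl fun x _ => ?_
          by_cases hxw : w = x
          · subst hxw
            simp
          · by_cases h0' : y {w, x} = 0
            · have h0'' : y {x, w} = 0 := by rw [Finset.pair_comm]; exact h0'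
              rw [h0', h0'']
              simp
            · have h4 : Lv w z ≠ 0 ↔ Lv x z ≠ 0 :=
                ⟨hadj w x h0' hxw, hadj x w (by rw [Finset.pair_comm]; exact h0') (fun h => hxw h.symm)⟩
              by_cases h5 : Lv w z ≠ 0
              · rw [if_pos ⟨h4.1 h5, fun h => hxw h.symm⟩, if_pos ⟨h5, hxw⟩, Finset.pair_comm x w]
                have h6 := sg_swap w x ∅ hxw (by simp) (by simp)
                have e1 : (sg w (∅ : Finset V) : ℤ) = 1 := by simp [sg]
                have e2 : (sg x (∅ : Finset V) : ℤ) = 1 := by simp [sg]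
                have e3 : (insert x ∅ : Finset V) = {x} := rfl
                have e4 : (insert w ∅ : Finset V) = {w} := rfl
                rw [e1, e2, e3, e4, mul_one, mul_one] at h6
                rw [h6]
                push_cast
                ring
              · rw [if_neg fun h => h5 (h4.2 h.1), if_neg fun h => h5 h.1, neg_zero]
        linarith
    have h1 := key (dv u v) hdv
    rw [Finset.sum_eq_single u] at h1
    · rw [if_pos ⟨hLu, hu2⟩] at h1
      unfold dv at h1
      rw [if_neg, if_pos rfl] at h1
      · norm_num at h1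
      · intro h
        exact huv (Finset.singleton_injective h)
    · intro w _ hw
      by_cases hwv : w = v
      · subst hwv
        exact if_neg fun h => h.1 hL
      · have h2 : dv u v {w} = 0 := by
          unfold dv
          rw [if_neg, if_neg]
          · exact fun h => hw (Finset.singleton_injective h)
          · exact fun h => hwv (Finset.singleton_injective h)
        rw [h2, ite_self]
    · intro h
      exact absurd (Finset.mem_univ _) h

end Abs

end Pool.Agent.TH652.Dual
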