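import Pool.Agent.TH652.Dual3

set_option autoImplicit false
set_option linter.unusedSectionVars false

/-!
# The family of orientations of the links
-/

namespace Pool.Agent.TH652.Dual

open Pool.Agent.W907.SG Pool.Agent.W907.SM Module

section Abs

variable {V : Type} [Fintype V] [LinearOrder V] {G : SimpleGraph V}

theorem sg_prod (s : V) (T : Finset V) : sg s T = ∏ t ∈ T, (if t < s then (-1 : ℤ) else 1) := by
  unfold sg
  rw [Finset.prod_ite, Finset.prod_const, Finset.prod_const_one, mul_one]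

/-- the sign relating the orientations -/
def ep (s : V) (S' : Finset V) : ℤ := (-1) ^ (S'.card - 1) * sg s (S'.erase s)

theorem ep_mul_self (s : V) (S' : Finset V) : ep s S' * ep s S' = 1 := by
  unfold ep
  rw [mul_mul_mul_comm, sg_mul_self, mul_one, ← mul_pow]
  simp

theorem ep_eq {s : V} {S' : Finset V} (hs : s ∈ S') :
    ep s S' = ∏ t ∈ S'.erase s, (if s < t then (-1 : ℤ) else 1) := by
  unfold ep
  rw [sg_prod, ← Finset.card_erase_of_mem hs, ← Finset.prod_const, ← Finset.prod_mul_distrib]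
  refine Finset.prod_congr rfl fun t ht => ?_
  have hne : t ≠ s := Finset.ne_of_mem_erase ht
  rcases lt_or_gt_of_ne hne with h | h
  · rw [if_pos h, if_neg (not_lt.2 h.le)]; norm_num
  · rw [if_neg (not_lt.2 (le_of_lt h)), if_pos h]; norm_num

/-- the orientations of the links determined by a global orientation -/
def oS (o : Finset V → ℝ) (S R : Finset V) : ℝ :=
  if Disjoint S R then ((∏ s ∈ S, sg s R : ℤ) : ℝ) * o (S ∪ R) else 0

theorem oS_empty (o : Finset V → ℝ) : oS o ∅ = o := by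
  funext R
  unfold oS
  rw [if_pos (Finset.disjoint_empty_left R), Finset.prod_empty, Int.cast_one, one_mul, Finset.empty_union]

theorem oS_step (o : Finset V → ℝ) {s : V} {S' R' : Finset V} (hs : s ∈ S') (hsR : s ∉ R') :
    (sg s R' : ℝ) * oS o (S'.erase s) (insert s R') = (ep s S' : ℝ) * oS o S' R' := by
  unfold oS
  by_cases h : Disjoint S' R'
  · have h1 : Disjoint (S'.erase s) (insert s R') := by
      rw [Finset.disjoint_left] at h ⊢
      intro t ht ht2
      rcases Finset.mem_insert.1 ht2 with rfl | ht2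
      · exact Finset.notMem_erase _ _ ht
      · exact h (Finset.mem_of_mem_erase ht) ht2
    have h2 : S'.erase s ∪ insert s R' = S' ∪ R' := by
      ext t
      simp only [Finset.mem_union, Finset.mem_erase, Finset.mem_insert]
      by_cases e : t = s
      · subst e; simp [hs]
      · simp [e]
    rw [if_pos h, if_pos h1, h2]
    have h3 : ∏ t ∈ S'.erase s, sg t (insert s R') = ep s S' * ∏ t ∈ S'.erase s, sg t R' := by
      rw [ep_eq hs, ← Finset.prod_mul_distrib]
      exact Finset.prod_congr rfl fun t _ => sg_insert t s R' hsR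
    rw [h3, ← Finset.mul_prod_erase S' (fun t => sg t R') hs]
    push_cast
    ring
  · have h1 : ¬ Disjoint (S'.erase s) (insert s R') := by
      intro h2
      apply h
      rw [Finset.disjoint_left] at h2 ⊢
      intro t ht ht2
      by_cases e : t = s
      · exact hsR (e ▸ ht2)
      · exact h2 (Finset.mem_erase.2 ⟨e, ht⟩) (Finset.mem_insert_of_mem ht2)
    rw [if_neg h, if_neg h1, mul_zero, mul_zero]

theorem oS_insert (o : Finset V → ℝ) {s : V} {S : Finset V} (hs : s ∉ S) :
    oS o (insert s S) = (ep s (insert s S) : ℝ) • Lv s (oS o S) := by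
  funext R
  rw [Pi.smul_apply, smul_eq_mul]
  by_cases hsR : s ∈ R
  · have e : Lv s (oS o S) R = 0 := if_pos hsR
    rw [e, mul_zero]
    refine if_neg ?_
    rw [Finset.disjoint_left]
    push Not
    exact ⟨s, Finset.mem_insert_self s S, hsR⟩
  · have e : Lv s (oS o S) R = (sg s R : ℝ) * oS o S (insert s R) := if_neg hsR
    have h1 := oS_step o (Finset.mem_insert_self s S) hsR
    rw [Finset.erase_insert hs] at h1
    rw [e, h1, ← mul_assoc]
    have h2 : (ep s (insert s S) : ℝ) * (ep s (insert s S) : ℝ) = 1 := by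
      exact_mod_cast ep_mul_self s (insert s S)
    rw [h2, one_mul]

/-- the orientations of the links are cycles and do not vanish -/
theorem oS_spec {n : ℕ} (hS : Sph n G) {o : Finset V → ℝ} (ho : o ∈ ZZ G (triv V) (lk G ∅) ∅ n) (ho0 : o ≠ 0)
    (S : Finset V) : G.IsClique (S : Set V) → ∀ d, d + S.card = n →
      oS o S ∈ ZZ G (triv V) (lk G S) ∅ d ∧ oS o S ≠ 0 := by
  induction S using Finset.induction_on with
  | empty =>
    intro _ d hd
    rw [Finset.card_empty, add_zero] at hd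
    subst hd
    rw [oS_empty]
    exact ⟨ho, ho0⟩
  | insert s S hs ih =>
    intro hcl d hd
    rw [Finset.card_insert_of_notMem hs] at hd
    have hcl' : G.IsClique (S : Set V) := hcl.subset (by simp)
    obtain ⟨h1, h2⟩ := ih hcl' (d + 1) (by omega)
    have hsl : s ∈ lk G S := fun u hu =>
      hcl (by simp) (by simp [hu]) (fun e => hs (e ▸ hu))
    have h3 := Lv_ne hS (d + 1) S hcl' (by omega) _ h1 h2 s hsl
    rw [oS_insert o hs]
    refine ⟨Submodule.smul_mem _ _ (Lv_mem s h1), ?_⟩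
    refine smul_ne_zero ?_ h3
    intro h4
    have h5 : (ep s (insert s S) : ℝ) * (ep s (insert s S) : ℝ) = 1 := by
      exact_mod_cast ep_mul_self s (insert s S)
    rw [h4] at h5
    norm_num at h5

/-- the existence of a global orientation -/
theorem exists_o {n : ℕ} (hS : Sph n G) : ∃ o ∈ ZZ G (triv V) (lk G ∅) ∅ n, o ≠ 0 := by
  have h1 := top_dim hS (S := ∅) (by simp) (d := n) (by simp)
  have h2 : ZZ G (triv V) (lk G ∅) ∅ n ≠ ⊥ := by
    intro h
    rw [h, finrank_bot] at h1
    omega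
  obtain ⟨o, ho, ho0⟩ := Submodule.exists_mem_ne_zero_of_ne_bot h2
  exact ⟨o, ho, ho0⟩

/-! ### the families attached to cochains -/

variable {X : Type} {a : V → X → X}

/-- the family `m S ⊗ o_S` -/
noncomputable def wm (o : Finset V → ℝ) (m : Finset V → X → ℝ) : Finset V → Finset V → X → ℝ := fun S R => oS o S R • m S

open Classical in
/-- the coboundary -/
noncomputable def dd (G : SimpleGraph V) (a : V → X → X) : (Finset V → X → ℝ) →ₗ[ℝ] (Finset V → X → ℝ) where
  toFun m S := if G.IsClique (S : Set V) then ∑ s ∈ S, sg s (S.erase s) • pp a s (m (S.erase s)) else 0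
  map_add' m m' := by
    funext S
    rw [Pi.add_apply]
    split_ifs with h
    · rw [← Finset.sum_add_distrib]
      refine Finset.sum_congr rfl fun s _ => ?_
      rw [Pi.add_apply, map_add, smul_add]
    · rw [add_zero]
  map_smul' r m := by
    funext S
    rw [Pi.smul_apply, RingHom.id_apply]
    split_ifs with h
    · rw [Finset.smul_sum]
      refine Finset.sum_congr rfl fun s _ => ?_
      rw [Pi.smul_apply, map_smul, smul_comm]
    · rw [smul_zero]

theorem dd_pos {m : Finset V → X → ℝ} {S : Finset V} (h : G.IsClique (S : Set V)) :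
    dd G a m S = ∑ s ∈ S, sg s (S.erase s) • pp a s (m (S.erase s)) := if_pos h

theorem dd_neg {m : Finset V → X → ℝ} {S : Finset V} (h : ¬ G.IsClique (S : Set V)) :
    dd G a m S = 0 := if_neg h

/-- the invariant cochains -/
noncomputable abbrev KP (G : SimpleGraph V) (a : V → X → X) (j : ℕ) : Submodule ℝ (Finset V → X → ℝ) :=
  KK G (fun v => - pull ℝ a v) Set.univ ∅ j

theorem mem_KP {j : ℕ} {m : Finset V → X → ℝ} : m ∈ KP G a j ↔
    (∀ T : Finset V, ¬ (G.IsClique (T : Set V) ∧ T.card = j) → m T = 0) ∧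
      ∀ (T : Finset V) (t : V), t ∈ T → pull ℝ a t (m T) = m T := by
  rw [mem_KK]
  constructor
  · rintro ⟨h1, h2⟩
    refine ⟨fun T hT => h1 T fun h => hT ⟨h.1, h.2.2⟩, fun T t ht => ?_⟩
    have h3 := h2 T t (Or.inl ht)
    rw [LinearMap.neg_apply] at h3
    exact neg_injective h3
  · rintro ⟨h1, h2⟩
    refine ⟨fun T hT => h1 T fun h => hT ⟨h.1, Set.subset_univ _, h.2⟩, fun T t ht => ?_⟩
    rcases ht with ht | ht
    · rw [LinearMap.neg_apply, h2 T t ht]
    · exact absurd ht (Set.notMem_empty _)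

theorem oS_ne_zero {o : Finset V → ℝ} {S R : Finset V} (h : oS o S R ≠ 0) : Disjoint S R ∧ o (S ∪ R) ≠ 0 := by
  unfold oS at h
  by_cases h1 : Disjoint S R
  · rw [if_pos h1] at h
    exact ⟨h1, fun h2 => h (by rw [h2, mul_zero])⟩
  · rw [if_neg h1] at h
    exact absurd rfl h

theorem oS_supp {n : ℕ} {o : Finset V → ℝ} (ho : o ∈ ZZ G (triv V) (lk G ∅) ∅ n) {S R : Finset V}
    (h : oS o S R ≠ 0) : Disjoint S R ∧ G.IsClique ((S ∪ R : Finset V) : Set V) ∧ R.card + S.card = n := by
  obtain ⟨h1, h2⟩ := oS_ne_zero h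
  have h3 := ho.1
  rw [SetLike.mem_coe, mem_KK_triv] at h3
  have h4 : G.IsClique ((S ∪ R : Finset V) : Set V) ∧ ((S ∪ R : Finset V) : Set V) ⊆ lk G ∅ ∧ (S ∪ R).card = n := by
    by_contra hn
    exact h2 (h3 _ hn)
  refine ⟨h1, h4.1, ?_⟩
  rw [← h4.2.2, Finset.card_union_of_disjoint h1, add_comm]

theorem wm_lay {n : ℕ} {o : Finset V → ℝ} (ho : o ∈ ZZ G (triv V) (lk G ∅) ∅ n) {i j : ℕ} (hij : i + j = n)
    {m : Finset V → X → ℝ} (hm : m ∈ KP G a j) : Lay G a j i (wm o m) := by
  rw [mem_KP] at hm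
  refine ⟨fun S R hn => ?_, fun S R s hs => ?_⟩
  · unfold wm
    by_cases h1 : oS o S R = 0
    · rw [h1, zero_smul]
    · obtain ⟨h2, h3, h4⟩ := oS_supp ho h1
      by_cases h5 : S.card = j
      · exact absurd ⟨h2, h3, h5, by omega⟩ hn
      · rw [hm.1 S fun h => h5 h.2, smul_zero]
  · unfold wm
    rw [map_smul, hm.2 S s hs]

theorem wm_D1 {n : ℕ} (hS : Sph n G) {o : Finset V → ℝ} (ho : o ∈ ZZ G (triv V) (lk G ∅) ∅ n) (ho0 : o ≠ 0)
    {i j : ℕ} (hij : i + j = n) {m : Finset V → X → ℝ} (hm : m ∈ KP G a j) : D1 (wm o m) = 0 := by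
  rw [mem_KP] at hm
  funext S R
  rw [D1_apply]
  by_cases h1 : G.IsClique (S : Set V) ∧ S.card = j
  · have h2 := (oS_spec hS ho ho0 S h1.1 i (by omega)).1.2
    have h3 := congrFun (show bd ℝ (oS o S) = 0 from h2) R
    rw [bd_apply, Pi.zero_apply] at h3
    have h4 : ∀ v ∈ Rᶜ, sg v R • wm o m S (insert v R) = (sg v R • oS o S (insert v R)) • m S := by
      intro v _
      unfold wm
      rw [smul_assoc]
    rw [Finset.sum_congr rfl h4, ← Finset.sum_smul, h3, zero_smul]
    rfl
  · refine Finset.sum_eq_zero fun v _ => ?_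
    unfold wm
    rw [hm.1 S h1, smul_zero, smul_zero]

theorem wm_D2 {n : ℕ} {o : Finset V → ℝ} (ho : o ∈ ZZ G (triv V) (lk G ∅) ∅ n) {j : ℕ}
    {m : Finset V → X → ℝ} (hm : m ∈ KP G a j) : D2 a (wm o m) = ((-1 : ℤ) ^ j) • wm o (dd G a m) := by
  rw [mem_KP] at hm
  funext S R
  rw [D2_apply]
  have h1 : ∀ s ∈ S \ R, sg s R • pp a s (wm o m (S.erase s) (insert s R)) =
      oS o S R • ep s S • pp a s (m (S.erase s)) := by
    intro s hs
    rw [Finset.mem_sdiff] at hs
    unfold wm
    have h2 := oS_step o hs.1 hs.2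
    rw [map_smul, ← Int.cast_smul_eq_zsmul ℝ (sg s R), smul_smul, h2, mul_comm, ← smul_smul,
      Int.cast_smul_eq_zsmul]
  rw [Finset.sum_congr rfl h1]
  show _ = ((-1 : ℤ) ^ j) • (oS o S R • dd G a m S)
  by_cases h3 : oS o S R = 0
  · rw [h3, zero_smul, smul_zero]
    exact Finset.sum_eq_zero fun s _ => zero_smul _ _
  · obtain ⟨h4, h5, h6⟩ := oS_supp ho h3
    have h7 : S \ R = S := Finset.sdiff_eq_self_of_disjoint h4
    rw [h7, dd_pos (h5.subset (by simp)), smul_comm, Finset.smul_sum, Finset.smul_sum]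
    refine Finset.sum_congr rfl fun s hs => ?_
    congr 1
    by_cases h8 : S.card = j + 1
    · unfold ep
      rw [h8, smul_smul, Nat.add_sub_cancel]
    · rw [hm.1 (S.erase s), map_zero, smul_zero, smul_zero, smul_zero]
      rintro ⟨_, h9⟩
      rw [Finset.card_erase_of_mem hs] at h9
      have := Finset.card_pos.2 ⟨s, hs⟩
      omega

theorem dd_KP (hi : ∀ v x, a v (a v x) = x) (hc : ∀ u v, G.Adj u v → ∀ x, a u (a v x) = a v (a u x)) {j : ℕ}
    {m : Finset V → X → ℝ} (hm : m ∈ KP G a j) : dd G a m ∈ KP G a (j + 1) := by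
  rw [mem_KP] at hm ⊢
  refine ⟨fun S hS => ?_, fun S t ht => ?_⟩
  · by_cases h : G.IsClique (S : Set V)
    · rw [dd_pos h]
      refine Finset.sum_eq_zero fun s hs => ?_
      rw [hm.1 (S.erase s), map_zero, smul_zero]
      rintro ⟨_, h9⟩
      rw [Finset.card_erase_of_mem hs] at h9
      have := Finset.card_pos.2 ⟨s, hs⟩
      exact hS ⟨h, by omega⟩
    · exact dd_neg h
  · by_cases h : G.IsClique (S : Set V)
    · rw [dd_pos h, map_sum]
      refine Finset.sum_congr rfl fun s hs => ?_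
      rw [map_zsmul]
      by_cases e : t = s
      · rw [e, pp_inv hi]
      · rw [pull_pp hc (h hs ht fun h => e h.symm), hm.2 _ t (Finset.mem_erase.2 ⟨e, ht⟩)]
    · rw [dd_neg h, map_zero]

theorem dd_of_D2 {n : ℕ} (hS : Sph n G) {o : Finset V → ℝ} (ho : o ∈ ZZ G (triv V) (lk G ∅) ∅ n) (ho0 : o ≠ 0)
    {j : ℕ} {m : Finset V → X → ℝ} (hm : m ∈ KP G a j) (h : D2 a (wm o m) = 0) : dd G a m = 0 := by
  rw [wm_D2 ho hm] at h
  funext S
  by_cases hcl : G.IsClique (S : Set V)
  · obtain ⟨d, hd⟩ := Nat.exists_eq_add_of_le (no_big hS hcl)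
    have h1 := (oS_spec hS ho ho0 S hcl d (by omega)).2
    obtain ⟨R, hR⟩ : ∃ R, oS o S R ≠ 0 := by
      by_contra hn
      push Not at hn
      exact h1 (funext hn)
    have h2 := congrFun (congrFun h S) R
    have h3 : ((-1 : ℤ) ^ j) • (oS o S R • dd G a m S) = 0 := h2
    have h4 : oS o S R • dd G a m S = 0 := by
      rcases neg_one_pow_eq_or ℤ j with h5 | h5
      · rwa [h5, one_smul] at h3
      · rw [h5, neg_smul, one_smul, neg_eq_zero] at h3
        exact h3
    rcases smul_eq_zero.1 h4 with h5 | h5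
    · exact absurd h5 hR
    · rw [h5]; rfl
  · rw [dd_neg hcl]; rfl

theorem dd_dd {n : ℕ} (hi : ∀ v x, a v (a v x) = x) (hc : ∀ u v, G.Adj u v → ∀ x, a u (a v x) = a v (a u x))
    (hS : Sph n G) {o : Finset V → ℝ} (ho : o ∈ ZZ G (triv V) (lk G ∅) ∅ n) (ho0 : o ≠ 0) {i j : ℕ}
    (hij : i + j = n) {m : Finset V → X → ℝ} (hm : m ∈ KP G a j) : dd G a (dd G a m) = 0 := by
  refine dd_of_D2 hS ho ho0 (dd_KP hi hc hm) ?_
  have h1 : D2 a (D2 a (wm o m)) = 0 := D2_D2 hc (wm_lay ho hij hm).good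
  rw [wm_D2 ho hm] at h1
  have h2 : D2 a (((-1 : ℤ) ^ j) • wm o (dd G a m)) = ((-1 : ℤ) ^ j) • D2 a (wm o (dd G a m)) := by
    funext S R
    rw [D2_apply]
    show _ = ((-1 : ℤ) ^ j) • D2 a (wm o (dd G a m)) S R
    rw [D2_apply, Finset.smul_sum]
    refine Finset.sum_congr rfl fun s _ => ?_
    show sg s R • pp a s (((-1 : ℤ) ^ j) • wm o (dd G a m) (S.erase s) (insert s R)) = _
    rw [map_zsmul, smul_comm]
  rw [h2] at h1
  rcases neg_one_pow_eq_or ℤ j with h5 | h5
  · rwa [h5, one_smul] at h1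
  · rw [h5, neg_smul, one_smul, neg_eq_zero] at h1
    exact h1

/-- the last step of the zigzag: a family of top cycles is of the form `wm o m` -/
theorem exists_m {n : ℕ} (hS : Sph n G) {o : Finset V → ℝ} (ho : o ∈ ZZ G (triv V) (lk G ∅) ∅ n) (ho0 : o ≠ 0)
    {i j : ℕ} (hij : i + j = n) {w : Finset V → Finset V → X → ℝ} (hw : Lay G a j i w) (h1 : D1 w = 0) :
    ∃ m ∈ KP G a j, w = wm o m := by
  classical
  have hR : ∀ S : Finset V, G.IsClique (S : Set V) → S.card = j → ∃ R, oS o S R ≠ 0 := by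
    intro S hcl hcard
    have h2 := (oS_spec hS ho ho0 S hcl i (by omega)).2
    by_contra hn
    push Not at hn
    exact h2 (funext hn)
  choose! R hR using hR
  refine ⟨fun S => if G.IsClique (S : Set V) ∧ S.card = j then (oS o S (R S))⁻¹ • w S (R S) else 0, ?_, ?_⟩
  · rw [mem_KP]
    refine ⟨fun S hn => if_neg hn, fun S t ht => ?_⟩
    split_ifs with h
    · rw [map_smul, hw.2 _ _ t ht]
    · rw [map_zero]
  · funext S T
    show w S T = oS o S T •
      (if G.IsClique (S : Set V) ∧ S.card = j then (oS o S (R S))⁻¹ • w S (R S) else 0)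
    split_ifs with h
    · funext x
      rw [Pi.smul_apply, Pi.smul_apply, smul_eq_mul, smul_eq_mul]
      have h2 : (fun R => w S R x) ∈ ZZ G (triv V) (lk G S) ∅ i := by
        refine ⟨?_, ?_⟩
        · rw [SetLike.mem_coe, mem_KK_triv]
          intro T hT
          rw [hw.1 S T, Pi.zero_apply]
          rintro ⟨h3, h4, _, h5⟩
          have h6 := (lk_iff h.1 T).2 ⟨h3, h4⟩
          exact hT ⟨h6.1, h6.2, h5⟩
        · show bd ℝ (fun R => w S R x) = 0
          funext R
          have h3 := congrFun (congrFun (congrFun h1 S) R) x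
          rw [D1_apply] at h3
          rw [bd_apply, Pi.zero_apply]
          rw [Pi.zero_apply, Pi.zero_apply, Pi.zero_apply, Finset.sum_apply] at h3
          exact h3
      have h3 := oS_spec hS ho ho0 S h.1 i (by omega)
      obtain ⟨r, hr⟩ := top_span hS h.1 (by omega) h3.1 h3.2 h2
      have h4 : ∀ T, w S T x = r * oS o S T := fun T => congrFun hr T
      rw [h4 T, h4 (R S)]
      have h5 := hR S h.1 h.2
      field_simp
    · rw [hw.1 S T, smul_zero]
      rintro ⟨_, h2, h3, _⟩
      exact h ⟨h2.subset (by simp), h3⟩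

end Abs

end Pool.Agent.TH652.Dual
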