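import Pool.Agent.TH652.Dual5
import Pool.Agent.W907.SG.All

set_option autoImplicit false
set_option linter.unusedSectionVars false

/-!
# Duality for the `ℓ²`-homology
-/

namespace Pool.Agent.TH652.Dual

open Pool.Agent.W907.SG Pool.Agent.W907.SM Module
open Pool.Agent.W397.SG (beta_iso)

section Twist

variable {V X : Type} [Fintype V] [LinearOrder V]

/-- the total sign -/
noncomputable def tsg (sgn : V → X → Bool) (x : X) : ℝ := ∏ v : V, (if sgn v x then (-1 : ℝ) else 1)

theorem tsg_mul_self (sgn : V → X → Bool) (x : X) : tsg sgn x * tsg sgn x = 1 := by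
  unfold tsg
  rw [← Finset.prod_mul_distrib]
  refine Finset.prod_eq_one fun v _ => ?_
  split_ifs <;> norm_num

theorem tsg_a {a : V → X → X} {sgn : V → X → Bool} (h1 : ∀ v x, sgn v (a v x) = !(sgn v x))
    (h2 : ∀ u v, u ≠ v → ∀ x, sgn u (a v x) = sgn u x) (v : V) (x : X) : tsg sgn (a v x) = - tsg sgn x := by
  unfold tsg
  rw [← Finset.mul_prod_erase Finset.univ _ (Finset.mem_univ v),
    ← Finset.mul_prod_erase Finset.univ _ (Finset.mem_univ v), h1]
  have h3 : ∏ u ∈ Finset.univ.erase v, (if sgn u (a v x) then (-1 : ℝ) else 1) =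
      ∏ u ∈ Finset.univ.erase v, (if sgn u x then (-1 : ℝ) else 1) :=
    Finset.prod_congr rfl fun u hu => by rw [h2 u v (Finset.ne_of_mem_erase hu)]
  rw [h3]
  cases sgn v x <;> simp

/-- multiplication by the sign -/
noncomputable def tw (sgn : V → X → Bool) : (X → ℝ) ≃ₗ[ℝ] (X → ℝ) where
  toFun f x := tsg sgn x * f x
  invFun f x := tsg sgn x * f x
  map_add' f g := by
    funext x
    rw [Pi.add_apply, Pi.add_apply, mul_add]
  map_smul' r f := by
    funext x
    simp only [Pi.smul_apply, smul_eq_mul, RingHom.id_apply]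
    ring
  left_inv f := by
    funext x
    show tsg sgn x * (tsg sgn x * f x) = f x
    rw [← mul_assoc, tsg_mul_self, one_mul]
  right_inv f := by
    funext x
    show tsg sgn x * (tsg sgn x * f x) = f x
    rw [← mul_assoc, tsg_mul_self, one_mul]

theorem tw_apply (sgn : V → X → Bool) (f : X → ℝ) (x : X) : tw sgn f x = tsg sgn x * f x := rfl

theorem beta_twist (G : SimpleGraph V) {a : V → X → X} {sgn : V → X → Bool}
    (h1 : ∀ v x, sgn v (a v x) = !(sgn v x)) (h2 : ∀ u v, u ≠ v → ∀ x, sgn u (a v x) = sgn u x) (i : ℕ) :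
    beta G (fun v => - pull ℝ a v) Set.univ ∅ i = beta G (pull ℝ a) Set.univ ∅ i := by
  refine beta_iso (e := tw sgn) ?_ G Set.univ ∅ i
  intro v m
  funext x
  rw [tw_apply, pull_apply, LinearMap.neg_apply, Pi.neg_apply, pull_apply, tw_apply, tsg_a h1 h2]
  ring

/-- the Betti numbers of a finite set with signs satisfy Poincaré duality -/
theorem duality_sgn [Fintype X] {G : SimpleGraph V} {n : ℕ} (hS : Sph n G) {a : V → X → X} {sgn : V → X → Bool}
    (hi : ∀ v x, a v (a v x) = x) (hc : ∀ u v, G.Adj u v → ∀ x, a u (a v x) = a v (a u x))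
    (h1 : ∀ v x, sgn v (a v x) = !(sgn v x)) (h2 : ∀ u v, u ≠ v → ∀ x, sgn u (a v x) = sgn u x)
    {i j : ℕ} (hij : i + j = n) :
    beta G (pull ℝ a) Set.univ ∅ i = beta G (pull ℝ a) Set.univ ∅ j := by
  refine le_antisymm ?_ ?_
  · rw [← beta_twist G h1 h2 j]
    exact duality hi hc hS hij
  · rw [← beta_twist G h1 h2 i]
    exact duality hi hc hS (by omega)

end Twist

/-- Poincaré duality for the vanishing of the reduced `ℓ²`-homology -/
theorem l2_duality {V : Type} [Fintype V] [LinearOrder V] {G : SimpleGraph V} {n : ℕ} (hS : Sph n G) {i j : ℕ}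
    (hij : i + j = n) (h : L2Van G j) : L2Van G i := by
  classical
  refine large V G i fun N E hE => ?_
  obtain ⟨E', hE', hs⟩ := small V G j h N
  obtain ⟨Y, fY, nY, P, ev, h1, h2, h3, h4⟩ := nilp 3 V G (E ∪ E') (by norm_num) (by
    rw [Finset.mem_union, not_or]
    exact ⟨hE, hE'⟩)
  refine ⟨Y, fY, nY, P.a, ev, P.inv, P.comm, h1, h2, h3, fun g hg => h4 g (Finset.mem_union_left _ hg), ?_⟩
  rw [duality_sgn hS P.inv P.comm P.sgn_self P.sgn_other hij]
  exact hs Y P.a ev P.inv P.comm h1 h2 h3 fun g hg => h4 g (Finset.mem_union_right _ hg)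

/-- above the top degree there are no chains -/
theorem l2_top {V : Type} [Fintype V] [LinearOrder V] {G : SimpleGraph V} {n : ℕ} (hS : Sph n G) {i : ℕ}
    (hi : n < i) : L2Van G i := by
  intro c hc
  funext w T
  refine hc.supp w T ?_
  rintro ⟨h1, h2⟩
  have h3 := no_big hS h1
  omega

end Pool.Agent.TH652.Dual
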